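import Pool.Agent.helper37.CZ.Spec

set_option autoImplicit false

open scoped Matrix Topology ComplexConjugate
open Filter

namespace Pool.Agent.CZ

section

attribute [local instance] Matrix.linftyOpNormedRing

theorem NEU_norm {B : Type} [NormedRing B] {n : ℕ} (R : Matrix (Fin n) (Fin n) B)
    (h : ∀ i j, (n : ℝ) * ‖R i j‖ ≤ 3 / 4) : ‖R‖ < 1 := by
  rw [Matrix.linfty_opNorm_def]
  have h1 : (Finset.univ.sup fun i => ∑ j, ‖R i j‖₊) ≤ (3 / 4 : NNReal) := by
    apply Finset.sup_le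
    intro i _
    rw [← NNReal.coe_le_coe, NNReal.coe_sum]
    have hn : (0 : ℝ) < n := by
      have := i.pos
      exact_mod_cast this
    have h2 : (n : ℝ) * ∑ j, ((‖R i j‖₊ : NNReal) : ℝ) ≤ n * (3 / 4) := by
      rw [Finset.mul_sum]
      calc ∑ j, (n : ℝ) * ((‖R i j‖₊ : NNReal) : ℝ) ≤ ∑ _j : Fin n, (3 / 4 : ℝ) :=
            Finset.sum_le_sum fun j _ => h i j
        _ = n * (3 / 4) := by rw [Finset.sum_const, Finset.card_univ, Fintype.card_fin, nsmul_eq_mul]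
    have h3 := le_of_mul_le_mul_left h2 hn
    refine h3.trans (le_of_eq ?_)
    norm_num
  have h2 : ((Finset.univ.sup fun i => ∑ j, ‖R i j‖₊ : NNReal) : ℝ) ≤ ((3 / 4 : NNReal) : ℝ) :=
    NNReal.coe_le_coe.2 h1
  refine lt_of_le_of_lt h2 ?_
  norm_num

theorem NEU_complete (n : ℕ) (B : Type) [NormedRing B] [CompleteSpace B] :
    @CompleteSpace (Matrix (Fin n) (Fin n) B)
      (Matrix.linftyOpNormedRing (n := Fin n) (α := B)).toPseudoMetricSpace.toUniformSpace := by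
  have h : CompleteSpace (Fin n → Fin n → B) := inferInstance
  exact h

theorem NEU_geom {B : Type} [NormedRing B] [CompleteSpace B] (T : Subring B)
    (hT : IsClosed (T : Set B)) {n : ℕ} (R : Matrix (Fin n) (Fin n) B) (hR : ∀ i j, R i j ∈ T)
    (h : ∀ i j, (n : ℝ) * ‖R i j‖ ≤ 3 / 4) :
    ∃ W : Matrix (Fin n) (Fin n) B, (∀ i j, W i j ∈ T) ∧ W * (1 - R) = 1 ∧ (1 - R) * W = 1 := by
  have h1 := NEU_norm R h
  have := NEU_complete n B
  refine ⟨∑' k : ℕ, R ^ k, ?_, geom_series_mul_neg R h1, mul_neg_geom_series R h1⟩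
  have hsum : HasSum (fun k : ℕ => R ^ k) (∑' k : ℕ, R ^ k) :=
    (summable_geometric_of_norm_lt_one h1).hasSum
  intro i j
  have hij : HasSum (fun k : ℕ => (R ^ k) i j) ((∑' k : ℕ, R ^ k) i j) := by
    have hc : Continuous (fun M : Matrix (Fin n) (Fin n) B => M i j) :=
      continuous_id.matrix_elem i j
    exact hsum.map ({ toFun := fun M => M i j, map_zero' := rfl, map_add' := fun _ _ => rfl } :
      Matrix (Fin n) (Fin n) B →+ B) hc
  have hpow : ∀ k : ℕ, ∀ i j, (R ^ k) i j ∈ T := by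
    intro k
    induction k with
    | zero =>
      intro i j
      rw [pow_zero]
      by_cases hij : i = j
      · rw [hij, Matrix.one_apply_eq]; exact T.one_mem
      · rw [Matrix.one_apply_ne hij]; exact T.zero_mem
    | succ k ih =>
      intro i j
      rw [pow_succ, Matrix.mul_apply]
      exact T.sum_mem fun l _ => T.mul_mem (ih i l) (hR l j)
  exact hT.mem_of_tendsto hij (Eventually.of_forall fun s => T.sum_mem fun k _ => hpow k i j)

end

theorem NEU (h1 : TR1_stmt) (h2 : TR2_stmt) : NEU_stmt := by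
  intro X _ _ α A _ ι u c hcov n r hr hrn
  choose s0 G hs0 hG hGt using fun i j => h2 X A ι u (r i j) (hr i j)
  have hev : ∀ᶠ s in 𝓝[>] (0 : ℝ), ∀ i j, s < s0 i j ∧ (n : ℝ) * ‖G i j s‖ ≤ 3 / 4 ∧
      (n : ℝ) * ‖G i j (-s)‖ ≤ 3 / 4 := by
    rw [eventually_all]
    intro i
    rw [eventually_all]
    intro j
    have hlim : Tendsto (fun s => (n : ℝ) * ‖G i j s‖) (𝓝 0) (𝓝 ((n : ℝ) * ‖r i j‖)) :=
      (hGt i j).norm.const_mul _
    have hlt : (n : ℝ) * ‖r i j‖ < 3 / 4 := lt_of_le_of_lt (hrn i j) (by norm_num)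
    have e1 : ∀ᶠ s in 𝓝 (0 : ℝ), (n : ℝ) * ‖G i j s‖ ≤ 3 / 4 :=
      (hlim.eventually_lt_const hlt).mono fun s hs => hs.le
    have hneg : Tendsto (fun s : ℝ => -s) (𝓝 0) (𝓝 0) := by
      have h3 := (continuous_neg (G := ℝ)).tendsto 0
      rwa [neg_zero] at h3
    have e2 := hneg.eventually e1
    have e3 : ∀ᶠ s in 𝓝 (0 : ℝ), s < s0 i j := Iio_mem_nhds (hs0 i j)
    exact nhdsWithin_le_nhds ((e3.and (e1.and e2)))
  obtain ⟨s, hs, hspos⟩ := (hev.and self_mem_nhdsWithin).exists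
  have hspos' : 0 < s := hspos
  set R : Matrix (Fin n) (Fin n) (A × A × A) := Matrix.of fun i j => (r i j, G i j s, G i j (-s))
    with hR
  have hRT : ∀ i j, R i j ∈ (Tri ι u s).toSubring := fun i j => hG i j s hspos' (hs i j).1
  have hn0 : (0 : ℝ) ≤ n := Nat.cast_nonneg n
  have hRn : ∀ i j, (n : ℝ) * ‖R i j‖ ≤ 3 / 4 := by
    intro i j
    have h3 : ‖R i j‖ = max ‖r i j‖ (max ‖G i j s‖ ‖G i j (-s)‖) := rfl
    rw [h3, mul_max_of_nonneg _ _ hn0, mul_max_of_nonneg _ _ hn0]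
    refine max_le ((hrn i j).trans (by norm_num)) (max_le (hs i j).2.1 (hs i j).2.2)
  have hcl : IsClosed ((Tri ι u s).toSubring : Set (A × A × A)) :=
    Subalgebra.isClosed_topologicalClosure _
  obtain ⟨W, hW, hW1, hW2⟩ := NEU_geom (Tri ι u s).toSubring hcl R hRT hRn
  have hmap : (RingHom.fst A (A × A)).mapMatrix (1 - R) = 1 - r := by
    rw [map_sub, map_one]
    rfl
  refine ⟨(RingHom.fst A (A × A)).mapMatrix W, fun i j => ?_, ?_, ?_⟩
  · exact h1 X α A ι u c hcov s hspos' (W i j) (hW i j)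
  · rw [← hmap, ← map_mul, hW1, map_one]
  · rw [← hmap, ← map_mul, hW2, map_one]

end Pool.Agent.CZ
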